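import Mathlib

/-!
Ladder systems on a non-reflecting stationary set of points of cofinality `ω`.
-/

set_option autoImplicit false

namespace Pool.Agent.H969NR

open Cardinal Order Set

universe u

variable {K : Type u} [LinearOrder K] [WellFoundedLT K]

/-- `η α`, for `α ∈ S`, is an infinite subset of `α` with only finitely many elements below each
`ξ < α`. -/
structure Ladder (S : Set K) (η : K → Set K) : Prop where
  lt : ∀ α ∈ S, ∀ x ∈ η α, x < α
  inf : ∀ α ∈ S, (η α).Infinite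
  fin : ∀ α ∈ S, ∀ ξ < α, (η α ∩ Iic ξ).Finite

theorem exists_mono_cofinal {γ : K} (hγ : (Iio γ).Nonempty) (hc : Order.cof (Iio γ) ≤ ℵ₀) :
    ∃ b : ℕ → Iio γ, Monotone b ∧ ∀ x : Iio γ, ∃ n, x ≤ b n := by
  have : Nonempty (Iio γ) := hγ.to_subtype
  obtain ⟨s, hs, hsc⟩ := Order.exists_cof_eq (Iio γ)
  have hcount : s.Countable := by
    rw [← Cardinal.le_aleph0_iff_set_countable, hsc]; exact hc
  have hne : s.Nonempty := by
    obtain ⟨y, hy, -⟩ := hs (Classical.arbitrary _)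
    exact ⟨y, hy⟩
  obtain ⟨a, ha⟩ := hcount.exists_eq_range hne
  let b : ℕ → Iio γ := fun n => Nat.rec (a 0) (fun k x => max x (a (k + 1))) n
  have hb : ∀ n, b (n + 1) = max (b n) (a (n + 1)) := fun n => rfl
  have hmono : Monotone b := monotone_nat_of_le_succ fun n => by
    rw [hb]; exact le_max_left _ _
  have hab : ∀ n, a n ≤ b n := by
    intro n
    cases n with
    | zero => exact le_rfl
    | succ n => rw [hb]; exact le_max_right _ _
  refine ⟨b, hmono, fun x => ?_⟩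
  obtain ⟨y, hy, hxy⟩ := hs x
  rw [ha] at hy
  obtain ⟨n, rfl⟩ := hy
  exact ⟨n, hxy.trans (hab n)⟩

theorem exists_ladder {S : Set K} (hS : ∀ α ∈ S, Order.cof (Iio α) = ℵ₀) :
    ∃ η : K → Set K, Ladder S η := by
  have h : ∀ α : K, ∃ e : Set K, α ∈ S → (∀ x ∈ e, x < α) ∧ e.Infinite ∧
      ∀ ξ < α, (e ∩ Iic ξ).Finite := by
    intro α
    by_cases hα : α ∈ S
    swap
    · exact ⟨∅, fun h => absurd h hα⟩
    have hc := hS α hα
    have hne : Nonempty (Iio α) := by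
      by_contra h
      rw [not_nonempty_iff] at h
      rw [Order.cof_eq_zero_iff.2 h] at hc
      exact Cardinal.aleph0_ne_zero hc.symm
    have hnotop : ∀ x : Iio α, ∃ y : Iio α, x < y := by
      intro x
      by_contra hcon
      push Not at hcon
      have : Order.cof (Iio α) = 1 := Order.cof_eq_one_iff.2 ⟨x, hcon⟩
      rw [hc] at this
      exact absurd this (ne_of_gt Cardinal.one_lt_aleph0)
    obtain ⟨b, hb, hbc⟩ := exists_mono_cofinal ⟨hne.some.1, hne.some.2⟩ hc.le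
    refine ⟨range fun n => (b n).1, fun _ => ⟨?_, ?_, ?_⟩⟩
    · rintro _ ⟨n, rfl⟩; exact (b n).2
    · intro hfin
      have hfin' : (range b).Finite := by
        have h2 := hfin.preimage (f := (Subtype.val : Iio α → K)) Subtype.val_injective.injOn
        refine h2.subset ?_
        rintro _ ⟨n, rfl⟩
        exact ⟨n, rfl⟩
      obtain ⟨m, hm, hmax⟩ := hfin'.exists_maximalFor id _ ⟨b 0, 0, rfl⟩
      obtain ⟨y, hy⟩ := hnotop m
      obtain ⟨n, hn⟩ := hbc y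
      have := hmax ⟨n, rfl⟩ (hy.le.trans hn)
      exact absurd (lt_of_lt_of_le hy (hn.trans this)) (lt_irrefl _)
    · intro ξ hξ
      obtain ⟨y, hy⟩ := hnotop ⟨ξ, hξ⟩
      obtain ⟨n, hn⟩ := hbc y
      have hsub : (range fun n => (b n).1) ∩ Iic ξ ⊆ (fun k => (b k).1) '' (Iio n) := by
        rintro _ ⟨⟨k, rfl⟩, hk⟩
        refine ⟨k, ?_, rfl⟩
        by_contra hkn
        have h3 : b n ≤ b k := hb (not_lt.1 hkn)
        have h4 : (⟨ξ, hξ⟩ : Iio α) < b k := lt_of_lt_of_le hy (hn.trans h3)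
        exact absurd h4 (not_lt.2 hk)
      exact ((finite_Iio n).image _).subset hsub
  choose η hη using h
  exact ⟨η, fun α hα => (hη α hα).1, fun α hα => (hη α hα).2.1, fun α hα => (hη α hα).2.2⟩

variable {S : Set K} {η : K → Set K}

theorem Ladder.ad (hL : Ladder S η) {α β : K} (hα : α ∈ S) (hβ : β ∈ S) (hne : α ≠ β) :
    (η α ∩ η β).Finite := by
  rcases lt_or_gt_of_ne hne with h | h
  · refine (hL.fin β hβ α h).subset ?_
    rintro x ⟨hx1, hx2⟩
    exact ⟨hx2, (hL.lt α hα x hx1).le⟩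
  · refine (hL.fin α hα β h).subset ?_
    rintro x ⟨hx1, hx2⟩
    exact ⟨hx1, (hL.lt β hβ x hx2).le⟩

/-- the ladders on `S ∩ (β, γ]` can be made disjoint, and contained in `(β, γ)` -/
def Dis (S : Set K) (η : K → Set K) (β γ : K) : Prop :=
  ∃ F : K → Set K, (∀ α, (F α).Finite) ∧
    (∀ α ∈ S, β < α → α ≤ γ → ∀ x ∈ η α, x ∉ F α → β < x) ∧
    ∀ α ∈ S, ∀ α' ∈ S, β < α → α ≤ γ → β < α' → α' ≤ γ → α ≠ α' →
      Disjoint (η α \ F α) (η α' \ F α')

/-- the same on `S ∩ (β, γ)` -/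
def Dis' (S : Set K) (η : K → Set K) (β γ : K) : Prop :=
  ∃ F : K → Set K, (∀ α, (F α).Finite) ∧
    (∀ α ∈ S, β < α → α < γ → ∀ x ∈ η α, x ∉ F α → β < x) ∧
    ∀ α ∈ S, ∀ α' ∈ S, β < α → α < γ → β < α' → α' < γ → α ≠ α' →
      Disjoint (η α \ F α) (η α' \ F α')

theorem dis_of_dis' (hL : Ladder S η) {β γ : K} (hβγ : β < γ) (h : Dis' S η β γ) : Dis S η β γ := by
  classical
  obtain ⟨F, hF1, hF2, hF3⟩ := h
  by_cases hγ : γ ∈ S
  swap
  · refine ⟨F, hF1, ?_, ?_⟩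
    · intro α hα h1 h2
      exact hF2 α hα h1 (lt_of_le_of_ne h2 (by rintro rfl; exact hγ hα))
    · intro α hα α' hα' h1 h2 h3 h4
      exact hF3 α hα α' hα' h1 (lt_of_le_of_ne h2 (by rintro rfl; exact hγ hα)) h3
        (lt_of_le_of_ne h4 (by rintro rfl; exact hγ hα'))
  obtain ⟨G, hG⟩ : ∃ G : K → Set K, G = fun α => if α = γ then η γ ∩ Iic β else
      if α ∈ S then F α ∪ (η α ∩ η γ) else ∅ := ⟨_, rfl⟩
  have hGγ : ∀ α, α = γ → G α = η γ ∩ Iic β := fun α h => by rw [hG]; exact if_pos h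
  have hGn : ∀ α, ¬ α = γ → G α = if α ∈ S then F α ∪ (η α ∩ η γ) else ∅ :=
    fun α h => by rw [hG]; exact if_neg h
  refine ⟨G, ?_, ?_, ?_⟩
  · intro α
    by_cases h1 : α = γ
    · rw [hGγ α h1]; exact hL.fin γ hγ β hβγ
    · rw [hGn α h1]
      split_ifs with h2
      · exact (hF1 α).union (hL.ad h2 hγ h1)
      · exact finite_empty
  · intro α hα h1 h2 x hx hxF
    by_cases h3 : α = γ
    · rw [hGγ α h3] at hxF
      subst h3
      by_contra hcon
      exact hxF ⟨hx, not_lt.1 hcon⟩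
    · rw [hGn α h3, if_pos hα] at hxF
      exact hF2 α hα h1 (lt_of_le_of_ne h2 h3) x hx fun h => hxF (Or.inl h)
  · intro α hα α' hα' h1 h2 h3 h4 hne
    rw [Set.disjoint_left]
    rintro x ⟨hx, hxF⟩ ⟨hx', hxF'⟩
    by_cases h5 : α = γ
    · have h6 : α' ≠ γ := fun h => hne (h5.trans h.symm)
      rw [hGn α' h6, if_pos hα'] at hxF'
      rw [h5] at hx
      exact hxF' (Or.inr ⟨hx', hx⟩)
    · rw [hGn α h5, if_pos hα] at hxF
      by_cases h6 : α' = γ
      · rw [h6] at hx'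
        exact hxF (Or.inr ⟨hx, hx'⟩)
      · rw [hGn α' h6, if_pos hα'] at hxF'
        exact Set.disjoint_left.1 (hF3 α hα α' hα' h1 (lt_of_le_of_ne h2 h5) h3
          (lt_of_le_of_ne h4 h6) hne) ⟨hx, fun h => hxF (Or.inl h)⟩ ⟨hx', fun h => hxF' (Or.inl h)⟩

theorem dis'_of_cofinal (hL : Ladder S η) {β γ : K} (C : Set K) (hCγ : ∀ c ∈ C, c < γ)
    (hcof : ∀ x < γ, ∃ c ∈ C, x ≤ c)
    (hCS : ∀ α ∈ S, β < α → α < γ → ∃ l < α, ∀ c ∈ C, c < α → c ≤ l)
    (ih : ∀ γ' < γ, ∀ β' < γ', Dis S η β' γ') : Dis' S η β γ := by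
  classical
  -- lo and hi
  have hlo : ∀ α, ∃ lo : K, (α ∈ S → β < α → α < γ →
      (β ≤ lo ∧ lo < α ∧ (∀ c ∈ C, c < α → c ≤ lo) ∧
        ∀ l, β ≤ l → (∀ c ∈ C, c < α → c ≤ l) → lo ≤ l)) := by
    intro α
    by_cases h : α ∈ S ∧ β < α ∧ α < γ
    swap
    · exact ⟨α, fun h1 h2 h3 => absurd ⟨h1, h2, h3⟩ h⟩
    obtain ⟨h1, h2, h3⟩ := h
    obtain ⟨l, hl, hlC⟩ := hCS α h1 h2 h3
    have hne : ({l | β ≤ l ∧ ∀ c ∈ C, c < α → c ≤ l} : Set K).Nonempty :=
      ⟨max β l, le_max_left _ _, fun c hc hcα => (hlC c hc hcα).trans (le_max_right _ _)⟩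
    refine ⟨wellFounded_lt.min _ hne, fun _ _ _ => ?_⟩
    have hmem := wellFounded_lt.min_mem _ hne
    refine ⟨hmem.1, ?_, hmem.2, ?_⟩
    · exact lt_of_le_of_lt (not_lt.1 (wellFounded_lt.not_lt_min
          {l : K | β ≤ l ∧ ∀ c ∈ C, c < α → c ≤ l} (x := max β l)
        ⟨le_max_left _ _, fun c hc hcα => (hlC c hc hcα).trans (le_max_right _ _)⟩)) (max_lt h2 hl)
    · intro l' h4 h5
      exact not_lt.1 (wellFounded_lt.not_lt_min {l : K | β ≤ l ∧ ∀ c ∈ C, c < α → c ≤ l} (x := l')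
        ⟨h4, h5⟩)
  choose lo hlo using hlo
  have hhi : ∀ α, ∃ hi : K, (α ∈ S → β < α → α < γ →
      (hi ∈ C ∧ α ≤ hi ∧ ∀ h ∈ C, α ≤ h → hi ≤ h)) := by
    intro α
    by_cases h : α ∈ S ∧ β < α ∧ α < γ
    swap
    · exact ⟨α, fun h1 h2 h3 => absurd ⟨h1, h2, h3⟩ h⟩
    obtain ⟨h1, h2, h3⟩ := h
    have hne : ({h | h ∈ C ∧ α ≤ h} : Set K).Nonempty := hcof α h3
    refine ⟨wellFounded_lt.min _ hne, fun _ _ _ => ?_⟩
    have hmem := wellFounded_lt.min_mem _ hne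
    exact ⟨hmem.1, hmem.2, fun h h4 h5 => not_lt.1 (wellFounded_lt.not_lt_min
      {h : K | h ∈ C ∧ α ≤ h} (x := h) ⟨h4, h5⟩)⟩
  choose hi hhi using hhi
  have hD : ∀ p : K × K, ∃ F : K → Set K, (∀ α, (F α).Finite) ∧ (p.1 < p.2 → p.2 < γ →
      (∀ α ∈ S, p.1 < α → α ≤ p.2 → ∀ x ∈ η α, x ∉ F α → p.1 < x) ∧
      ∀ α ∈ S, ∀ α' ∈ S, p.1 < α → α ≤ p.2 → p.1 < α' → α' ≤ p.2 → α ≠ α' →
        Disjoint (η α \ F α) (η α' \ F α')) := by
    intro p
    by_cases h : p.1 < p.2 ∧ p.2 < γ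
    · obtain ⟨F, h1, h2, h3⟩ := ih p.2 h.2 p.1 h.1
      exact ⟨F, h1, fun _ _ => ⟨h2, h3⟩⟩
    · exact ⟨fun _ => ∅, fun _ => finite_empty, fun h1 h2 => absurd ⟨h1, h2⟩ h⟩
  choose F hF1 hF2 using hD
  refine ⟨fun α => F (lo α, hi α) α, fun α => hF1 _ _, ?_, ?_⟩
  · intro α hα h1 h2 x hx hxF
    obtain ⟨a1, a2, a3, a4⟩ := hlo α hα h1 h2
    obtain ⟨b1, b2, b3⟩ := hhi α hα h1 h2
    have := (hF2 (lo α, hi α) (lt_of_lt_of_le a2 b2) (hCγ _ b1)).1 α hα a2 b2 x hx hxF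
    exact lt_of_le_of_lt a1 this
  · -- reduce to α < α'
    have key : ∀ α ∈ S, ∀ α' ∈ S, β < α → α < γ → β < α' → α' < γ → α < α' →
        Disjoint (η α \ F (lo α, hi α) α) (η α' \ F (lo α', hi α') α') := by
      intro α hα α' hα' h1 h2 h3 h4 hlt
      obtain ⟨a1, a2, a3, a4⟩ := hlo α hα h1 h2
      obtain ⟨b1, b2, b3⟩ := hhi α hα h1 h2
      obtain ⟨a1', a2', a3', a4'⟩ := hlo α' hα' h3 h4
      obtain ⟨b1', b2', b3'⟩ := hhi α' hα' h3 h4
      by_cases hc : ∃ c ∈ C, α ≤ c ∧ c < α'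
      · obtain ⟨c, hc, hc1, hc2⟩ := hc
        have h5 : α ≤ lo α' := hc1.trans (a3' c hc hc2)
        rw [Set.disjoint_left]
        rintro x ⟨hx, -⟩ ⟨hx', hxF'⟩
        have h6 := (hF2 (lo α', hi α') (lt_of_lt_of_le a2' b2') (hCγ _ b1')).1 α' hα' a2' b2' x hx' hxF'
        have h7 := hL.lt α hα x hx
        exact absurd (h7.trans_le h5) (not_lt.2 h6.le)
      · push Not at hc
        have e1 : lo α = lo α' := by
          apply le_antisymm
          · exact a4 _ a1' fun c hcC hcα => a3' c hcC (hcα.trans hlt)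
          · refine a4' _ a1 fun c hcC hcα' => ?_
            by_cases h5 : c < α
            · exact a3 c hcC h5
            · exact absurd hcα' (not_lt.2 (hc c hcC (not_lt.1 h5)))
        have e2 : hi α = hi α' := by
          apply le_antisymm
          · exact b3 _ b1' (hlt.le.trans b2')
          · exact b3' _ b1 (hc _ b1 b2)
        rw [← e1, ← e2]
        rw [← e1] at a2'
        rw [← e2] at b2'
        exact (hF2 (lo α, hi α) (lt_of_lt_of_le a2 b2) (hCγ _ b1)).2 α hα α' hα' a2 b2 a2' b2' hlt.ne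
    intro α hα α' hα' h1 h2 h3 h4 hne
    rcases lt_or_gt_of_ne hne with h | h
    · exact key α hα α' hα' h1 h2 h3 h4 h
    · exact (key α' hα' α hα h3 h4 h1 h2 h).symm

/-- Ladders on a non-reflecting set can be made disjoint below each point. -/
theorem dis_all (hL : Ladder S η)
    (hnr : ∀ δ : K, ℵ₀ < Order.cof (Iio δ) → ¬ IsStationary {x : Iio δ | x.1 ∈ S}) :
    ∀ γ β : K, β < γ → Dis S η β γ := by
  intro γ
  induction γ using WellFoundedLT.induction with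
  | ind γ ih =>
  intro β hβγ
  apply dis_of_dis' hL hβγ
  rcases le_or_gt (Order.cof (Iio γ)) ℵ₀ with hc | hc
  · obtain ⟨b, hb, hbc⟩ := exists_mono_cofinal ⟨β, hβγ⟩ hc
    refine dis'_of_cofinal hL (range fun n => (b n).1) ?_ ?_ ?_ ih
    · rintro _ ⟨n, rfl⟩; exact (b n).2
    · intro x hx
      obtain ⟨n, hn⟩ := hbc ⟨x, hx⟩
      exact ⟨_, ⟨n, rfl⟩, hn⟩
    · intro α _ h1 h2
      obtain ⟨n, hn⟩ := hbc ⟨α, h2⟩
      have hfin : ((range fun n => (b n).1) ∩ Iio α).Finite := by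
        refine ((finite_Iio n).image fun k => (b k).1).subset ?_
        rintro _ ⟨⟨k, rfl⟩, hk⟩
        refine ⟨k, ?_, rfl⟩
        by_contra hkn
        have h3 : b n ≤ b k := hb (not_lt.1 hkn)
        exact absurd (lt_of_le_of_lt (hn.trans h3 : (⟨α, h2⟩ : Iio γ) ≤ b k) hk) (lt_irrefl _)
      rcases (((range fun n => (b n).1) ∩ Iio α)).eq_empty_or_nonempty with he | hne
      · refine ⟨β, h1, fun c hc hcα => ?_⟩
        have : c ∈ ((range fun n => (b n).1) ∩ Iio α) := ⟨hc, hcα⟩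
        rw [he] at this
        exact absurd this (Set.notMem_empty _)
      · obtain ⟨m, hm, hmax⟩ := hfin.exists_maximalFor id _ hne
        refine ⟨m, hm.2, fun c hc hcα => ?_⟩
        rcases le_total c m with h | h
        · exact h
        · exact hmax ⟨hc, hcα⟩ h
  · have h1 := hnr γ hc
    rw [not_isStationary_iff] at h1
    obtain ⟨t, ht, hdisj⟩ := h1
    refine dis'_of_cofinal hL (Subtype.val '' t) ?_ ?_ ?_ ih
    · rintro _ ⟨x, -, rfl⟩; exact x.2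
    · intro x hx
      obtain ⟨y, hy, hxy⟩ := ht.isCofinal ⟨x, hx⟩
      exact ⟨y.1, ⟨y, hy, rfl⟩, hxy⟩
    · intro α hα h1 h2
      rcases (t ∩ Iio (⟨α, h2⟩ : Iio γ)).eq_empty_or_nonempty with he | hne
      · refine ⟨β, h1, ?_⟩
        rintro _ ⟨c, hc, rfl⟩ hcα
        have : c ∈ t ∩ Iio (⟨α, h2⟩ : Iio γ) := ⟨hc, hcα⟩
        rw [he] at this
        exact absurd this (Set.notMem_empty _)
      · -- the least upper bound of t ∩ Iio α
        have hub : ({l : Iio γ | ∀ c ∈ t ∩ Iio (⟨α, h2⟩ : Iio γ), c ≤ l}).Nonempty :=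
          ⟨⟨α, h2⟩, fun c hc => hc.2.le⟩
        have hmem := wellFounded_lt.min_mem _ hub
        set l := wellFounded_lt.min _ hub with hl
        have hlub : IsLUB (t ∩ Iio (⟨α, h2⟩ : Iio γ)) l := by
          refine ⟨fun c hc => hmem c hc, fun l' hl' => ?_⟩
          exact not_lt.1 (wellFounded_lt.not_lt_min _ (show l' ∈ {l : Iio γ | ∀ c ∈ t ∩ Iio (⟨α, h2⟩ : Iio γ), c ≤ l} from fun c hc => hl' hc))
        have hlt : l ∈ t := ht.isLUB_mem inter_subset_left hne hlub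
        have hle : l ≤ ⟨α, h2⟩ := hlub.2 fun c hc => hc.2.le
        have hne' : l ≠ ⟨α, h2⟩ := by
          intro h
          rw [h] at hlt
          exact Set.disjoint_left.1 hdisj (show (⟨α, h2⟩ : Iio γ) ∈ {x : Iio γ | x.1 ∈ S} from hα) hlt
        refine ⟨l.1, lt_of_le_of_ne hle fun h => hne' (Subtype.ext h), ?_⟩
        rintro _ ⟨c, hc, rfl⟩ hcα
        exact hlub.1 ⟨hc, hcα⟩

end Pool.Agent.H969NR
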