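import Pool.Agent.H969NR.Small

/-!
Nonreflecting stationary sets of points of cofinality `ω` give compact spaces which are not Corson,
although closures of small subsets are uniform Eberlein.
-/

set_option autoImplicit false

namespace Pool.Agent.H969NR

open Cardinal Order Set Topology Filter

theorem main_exists (κ : Cardinal.{0}) (hκ : κ.IsRegular) (hκ0 : ℵ₀ < κ)
    (S : Set κ.ord.ToType) (hS : IsStationary S) (hcof : ∀ α ∈ S, Order.cof (Iio α) = ℵ₀)
    (hnr : ∀ δ : κ.ord.ToType, ℵ₀ < Order.cof (Iio δ) → ¬ IsStationary {x : Iio δ | x.1 ∈ S}) :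
    ∃ (X : Type) (_ : TopologicalSpace X) (_ : CompactSpace X) (_ : T2Space X),
      (∀ A : Set X, #A < κ → ∃ (Γ : Type) (f : ↥(closure A) → (Γ → ℝ)), Continuous f ∧
        Function.Injective f ∧ (∀ x, (Function.support (f x)).Finite) ∧ ∀ x i, |f x i| ≤ 1) ∧
      ∀ (Γ : Type) (f : X → (Γ → ℝ)), Continuous f → Function.Injective f →
        ¬ ∀ x, (Function.support (f x)).Countable := by
  have hcK : Order.cof κ.ord.ToType = κ := by rw [Ordinal.cof_toType]; exact hκ.cof_ord
  have hK : ℵ₀ < Order.cof κ.ord.ToType := by rw [hcK]; exact hκ0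
  have hsm : ∀ x : κ.ord.ToType, #(Iic x) < Order.cof κ.ord.ToType := by
    intro x
    rw [hcK]
    have h1 : #(Iio x) < κ := Cardinal.mk_Iio_toType_ord_lt x
    have h2 : (Iic x : Set κ.ord.ToType) = insert x (Iio x) := by
      ext y; simp [le_iff_eq_or_lt]
    rw [h2]
    refine lt_of_le_of_lt Cardinal.mk_insert_le ?_
    exact Cardinal.add_lt_of_lt hκ0.le h1 (Cardinal.one_lt_aleph0.trans hκ0)
  obtain ⟨η, hL⟩ := exists_ladder hcof
  have hne : ∀ α ∈ S, (Iio α : Set κ.ord.ToType).Nonempty := by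
    intro α hα
    by_contra h
    have he : IsEmpty (Iio α) := by
      rw [Set.not_nonempty_iff_eq_empty] at h
      rw [h]; infer_instance
    have h1 := hcof α hα
    rw [Order.cof_eq_zero_iff.2 he] at h1
    exact Cardinal.aleph0_ne_zero h1.symm
  have hclosed : IsClosed (XS S η) :=
    isClosed_XL (fun α hα β hβ h => hL.ad hα hβ h) fun α hα h => absurd hα h
  refine ⟨XS S η, inferInstance, isCompact_iff_compactSpace.1 hclosed.isCompact, inferInstance,
    ?_, ?_⟩
  · intro A hA
    obtain ⟨f, h1, h2, h3, h4⟩ := small_closure hK hL hne hnr A (by rw [hcK]; exact hA)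
    exact ⟨_, f, h1, h2, h3, h4⟩
  · intro Γ f hf hinj hsupp
    exact not_corson hK hsm hS hL Γ f hf hinj hsupp

end Pool.Agent.H969NR
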