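import Pool.Agent.H969NR.Space

/-!
The whole space is not Corson compact.
-/

set_option autoImplicit false

namespace Pool.Agent.H969NR

open Cardinal Order Set Topology Filter

universe u v

theorem exists_gt_of_lt_cof {K : Type u} [LinearOrder K] {s : Set K} (hs : #s < Order.cof K) :
    ∃ b : K, ∀ x ∈ s, x < b := by
  by_contra h
  push Not at h
  exact absurd (Order.cof_le (s := s) h) (not_le.2 hs)

/-- closing off: a stationary set contains a point closed under `G` -/
theorem exists_closed {K : Type u} [LinearOrder K] [WellFoundedLT K] (hK : ℵ₀ < Order.cof K)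
    (hsm : ∀ x : K, #(Iic x) < Order.cof K)
    {S : Set K} (hS : IsStationary S) (G : K → K) : ∃ δ ∈ S, ∀ ξ < δ, G ξ < δ := by
  have hclub : IsClub {δ : K | ∀ ξ < δ, G ξ < δ} := by
    refine ⟨?_, ?_⟩
    · intro d hd hne hdir a ha ξ hξ
      obtain ⟨c, hc, hξc⟩ : ∃ c ∈ d, ξ < c := by
        by_contra h
        push Not at h
        exact absurd (ha.2 h) (not_le.2 hξ)
      exact lt_of_lt_of_le (hd hc ξ hξc) (ha.1 hc)
    · intro x₀
      have hstep : ∀ x : K, ∃ y : K, x < y ∧ ∀ ξ ≤ x, G ξ < y := by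
        intro x
        obtain ⟨b, hb⟩ := exists_gt_of_lt_cof (K := K) (s := insert x (G '' Iic x)) (by
          refine lt_of_le_of_lt (Cardinal.mk_insert_le) ?_
          exact Cardinal.add_lt_of_lt hK.le (lt_of_le_of_lt Cardinal.mk_image_le (hsm x))
            (Cardinal.one_lt_aleph0.trans hK))
        exact ⟨b, hb x (Or.inl rfl), fun ξ hξ => hb _ (Or.inr ⟨ξ, hξ, rfl⟩)⟩
      choose g hg1 hg2 using hstep
      let a : ℕ → K := fun n => Nat.rec x₀ (fun _ y => g y) n
      have ha : ∀ n, a (n + 1) = g (a n) := fun n => rfl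
      obtain ⟨b, hb⟩ := exists_gt_of_lt_cof (K := K) (s := range a) (lt_of_le_of_lt
        (Cardinal.le_aleph0_iff_set_countable.2 (countable_range a)) hK)
      have hub : ({l : K | ∀ n, a n ≤ l}).Nonempty := ⟨b, fun n => (hb _ ⟨n, rfl⟩).le⟩
      have hmem := wellFounded_lt.min_mem _ hub
      set δ := wellFounded_lt.min _ hub with hδ
      refine ⟨δ, ?_, hmem 0⟩
      intro ξ hξ
      obtain ⟨n, hn⟩ : ∃ n, ξ < a n := by
        by_contra h
        push Not at h
        exact wellFounded_lt.not_lt_min {l : K | ∀ n, a n ≤ l} (x := ξ) h hξ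
      have h1 : G ξ < a (n + 1) := by rw [ha]; exact hg2 _ _ hn.le
      exact h1.trans_le (hmem (n + 1))
  obtain ⟨δ, hδ, hδ'⟩ := hS hclub
  exact ⟨δ, hδ, hδ'⟩

variable {K : Type u} [LinearOrder K] [WellFoundedLT K]

/-- the whole space -/
def XS (S : Set K) (η : K → Set K) : Set (K ⊕ K → Bool) := XL S η univ S

/-- There is no continuous injection of the space into a `Σ`-product of real lines. -/
theorem not_corson (hK : ℵ₀ < Order.cof K) (hsm : ∀ x : K, #(Iic x) < Order.cof K)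
    {S : Set K} (hS : IsStationary S) {η : K → Set K} (hL : Ladder S η) (Γ : Type u)
    (f : XS S η → (Γ → ℝ)) (hf : Continuous f) (hinj : Function.Injective f)
    (hsupp : ∀ x, (Function.support (f x)).Countable) : False := by
  have had : ∀ α ∈ S, ∀ β ∈ S, α ≠ β → (η α ∩ η β).Finite := fun α hα β hβ h => hL.ad hα hβ h
  let z : XS S η := ⟨zer, zer_mem⟩
  let p : K → XS S η := fun ξ => ⟨pt S η ξ, pt_mem (mem_univ _)⟩
  let q : S → XS S η := fun α => ⟨pp α.1, pp_mem α.2⟩
  have hq : Tendsto q cofinite (𝓝 z) := by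
    rw [tendsto_subtype_rng]
    exact tendsto_pp S
  have hp : ∀ δ : S, Tendsto (fun ξ : η δ => p ξ.1) cofinite (𝓝 (q δ)) := by
    intro δ
    rw [tendsto_subtype_rng]
    exact tendsto_pt had δ.2
  -- each coordinate distinguishes only countably many limit points from infinity
  have hcount : ∀ γ : Γ, ({α : S | f (q α) γ ≠ f z γ} : Set S).Countable := by
    intro γ
    have h1 : Tendsto (fun α : S => f (q α) γ) cofinite (𝓝 (f z γ)) :=
      (((continuous_apply γ).comp hf).tendsto z).comp hq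
    have h2 := h1.countable_compl_preimage_ker
    rw [ker_nhds] at h2
    exact h2
  let M : K → Set Γ := fun ε => Function.support (f z) ∪ ⋃ ξ : Iic ε, Function.support (f (p ξ.1))
  have hM : ∀ ε, #(M ε) < Order.cof K := by
    intro ε
    refine lt_of_le_of_lt (Cardinal.mk_union_le _ _) ?_
    refine Cardinal.add_lt_of_lt hK.le
      (lt_of_le_of_lt (Cardinal.le_aleph0_iff_set_countable.2 (hsupp z)) hK) ?_
    refine lt_of_le_of_lt (Cardinal.mk_iUnion_le_sum_mk) ?_
    refine lt_of_le_of_lt (Cardinal.sum_le_sum _ (fun _ => ℵ₀)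
      fun ξ => Cardinal.le_aleph0_iff_set_countable.2 (hsupp _)) ?_
    rw [Cardinal.sum_const']
    exact Cardinal.mul_lt_of_lt hK.le (hsm ε) hK
  have hT : ∀ ε, ∃ b : K, ∀ δ : S, (∃ γ ∈ M ε, f (q δ) γ ≠ f z γ) → δ.1 < b := by
    intro ε
    have hsub : (Subtype.val '' {δ : S | ∃ γ ∈ M ε, f (q δ) γ ≠ f z γ} : Set K) =
        Subtype.val '' (⋃ γ : M ε, {α : S | f (q α) γ.1 ≠ f z γ.1}) := by
      congr 1
      ext δ
      simp
    obtain ⟨b, hb⟩ := exists_gt_of_lt_cof (K := K)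
      (s := Subtype.val '' {δ : S | ∃ γ ∈ M ε, f (q δ) γ ≠ f z γ}) (by
        rw [hsub]
        refine lt_of_le_of_lt Cardinal.mk_image_le ?_
        refine lt_of_le_of_lt (Cardinal.mk_iUnion_le_sum_mk) ?_
        refine lt_of_le_of_lt (Cardinal.sum_le_sum _ (fun _ => ℵ₀)
          fun γ => Cardinal.le_aleph0_iff_set_countable.2 (hcount _)) ?_
        rw [Cardinal.sum_const']
        exact Cardinal.mul_lt_of_lt hK.le (hM ε) hK)
    exact ⟨b, fun δ hδ => hb _ ⟨δ, hδ, rfl⟩⟩
  choose G hG using hT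
  obtain ⟨δ, hδS, hδ⟩ := exists_closed hK hsm hS G
  have heq : f (q ⟨δ, hδS⟩) = f z := by
    funext γ
    by_contra hne
    have h1 : ∀ ε < δ, γ ∉ M ε := fun ε hε hγ =>
      absurd (hG ε ⟨δ, hδS⟩ ⟨γ, hγ, hne⟩) (not_lt.2 (hδ ε hε).le)
    have hinf := hL.inf δ hδS
    obtain ⟨ε, hε⟩ := hinf.nonempty
    have hz : f z γ = 0 := by
      by_contra h
      exact h1 ε (hL.lt δ hδS ε hε) (Or.inl h)
    have hpz : ∀ ξ : η δ, f (p ξ.1) γ = 0 := by
      intro ξ
      by_contra h
      refine h1 ξ.1 (hL.lt δ hδS ξ.1 ξ.2) (Or.inr ?_)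
      exact mem_iUnion.2 ⟨⟨ξ.1, le_rfl⟩, h⟩
    have h2 : Tendsto (fun ξ : η δ => f (p ξ.1) γ) cofinite (𝓝 (f (q ⟨δ, hδS⟩) γ)) :=
      (((continuous_apply γ).comp hf).tendsto _).comp (hp ⟨δ, hδS⟩)
    have : Infinite (η δ) := hinf.to_subtype
    have h3 : f (q ⟨δ, hδS⟩) γ = 0 := by
      refine tendsto_nhds_unique h2 ?_
      refine tendsto_const_nhds.congr fun ξ => (hpz ξ).symm
    exact hne (h3.trans hz.symm)
  have h4 := hinj heq
  exact pp_ne_zer δ (congrArg Subtype.val h4)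

end Pool.Agent.H969NR
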