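import Pool.Agent.H969NR.NonCorson

/-!
Closures of small subsets are (very) Eberlein.
-/

set_option autoImplicit false

namespace Pool.Agent.H969NR

open Cardinal Order Set Topology Filter

universe u

variable {K : Type u} [LinearOrder K] [WellFoundedLT K]

/-- the clopen set whose indicator is the `inr α` coordinate -/
def CU (F : K → Set K) (α : K) : Set (K ⊕ K → Bool) :=
  {x | x (Sum.inr α) = true ∧ ∀ ξ ∈ F α, x (Sum.inl ξ) = false}

theorem isClopen_CU {F : K → Set K} (hF : ∀ α, (F α).Finite) (α : K) : IsClopen (CU F α) := by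
  have h1 : CU F α = {x | x (Sum.inr α) = true} ∩ ⋂ ξ ∈ F α, {x | x (Sum.inl ξ) = false} := by
    ext x; simp [CU]
  rw [h1]
  have hc : ∀ (i : K ⊕ K) (b : Bool), IsClopen {x : K ⊕ K → Bool | x i = b} := fun i b =>
    (isClopen_discrete ({b} : Set Bool)).preimage (continuous_apply i)
  exact (hc _ _).inter ((hF α).isClopen_biInter fun ξ _ => hc _ _)

open Classical in
/-- the coordinates of the embedding of the closed subset of points up to `γ` -/
noncomputable def phi (S : Set K) (F : K → Set K) (γ : K) (x : K ⊕ K → Bool) : K ⊕ K → ℝ :=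
  Sum.elim (fun ξ => if x (Sum.inl ξ) = true then 1 else 0)
    (fun α => if α ∈ S ∧ α ≤ γ then (CU F α).indicator (fun _ => (1 : ℝ)) x else 0)

theorem continuous_phi {S : Set K} {F : K → Set K} (hF : ∀ α, (F α).Finite) (γ : K) :
    Continuous (phi S F γ) := by
  classical
  refine continuous_pi ?_
  rintro (ξ | α)
  · exact (continuous_of_discreteTopology (f := fun b : Bool => if b = true then (1 : ℝ) else 0)).comp
      (continuous_apply (Sum.inl ξ))
  · by_cases h : α ∈ S ∧ α ≤ γ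
    · have : (fun x => phi S F γ x (Sum.inr α)) = (CU F α).indicator (fun _ => (1 : ℝ)) := by
        funext x
        show (if α ∈ S ∧ α ≤ γ then (CU F α).indicator (fun _ => (1 : ℝ)) x else 0) = _
        rw [if_pos h]
      rw [this]
      exact (isClopen_CU hF α).continuous_indicator continuous_const
    · have : (fun x => phi S F γ x (Sum.inr α)) = fun _ => (0 : ℝ) := by
        funext x
        show (if α ∈ S ∧ α ≤ γ then (CU F α).indicator (fun _ => (1 : ℝ)) x else 0) = _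
        rw [if_neg h]
      rw [this]
      exact continuous_const

theorem phi_inl (S : Set K) (F : K → Set K) (γ : K) (x : K ⊕ K → Bool) (ξ : K) :
    phi S F γ x (Sum.inl ξ) ≠ 0 ↔ x (Sum.inl ξ) = true := by
  classical
  show (if x (Sum.inl ξ) = true then (1 : ℝ) else 0) ≠ 0 ↔ _
  split_ifs with h <;> simp [h]

theorem phi_inr (S : Set K) (F : K → Set K) (γ : K) (x : K ⊕ K → Bool) (α : K) :
    phi S F γ x (Sum.inr α) ≠ 0 ↔ (α ∈ S ∧ α ≤ γ) ∧ x (Sum.inr α) = true ∧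
      ∀ ξ ∈ F α, x (Sum.inl ξ) = false := by
  classical
  show (if α ∈ S ∧ α ≤ γ then (CU F α).indicator (fun _ => (1 : ℝ)) x else 0) ≠ 0 ↔ _
  split_ifs with h
  · rw [Set.indicator_apply]
    by_cases h2 : x ∈ CU F α
    · rw [if_pos h2]; exact ⟨fun _ => ⟨h, h2⟩, fun _ => one_ne_zero⟩
    · rw [if_neg h2]; exact ⟨fun h3 => absurd rfl h3, fun h3 => absurd h3.2 h2⟩
  · exact ⟨fun h3 => absurd rfl h3, fun h3 => absurd h3.1 h⟩

theorem phi_bound (S : Set K) (F : K → Set K) (γ : K) (x : K ⊕ K → Bool) (i : K ⊕ K) :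
    |phi S F γ x i| ≤ 1 := by
  classical
  rcases i with ξ | α
  · show |(if x (Sum.inl ξ) = true then (1 : ℝ) else 0)| ≤ 1
    split_ifs <;> simp
  · show |(if α ∈ S ∧ α ≤ γ then (CU F α).indicator (fun _ => (1 : ℝ)) x else 0)| ≤ 1
    rw [Set.indicator_apply]
    split_ifs <;> simp

/-- the closed subset of points up to `γ` -/
def XG (S : Set K) (η : K → Set K) (γ : K) : Set (K ⊕ K → Bool) := XL S η (Iic γ) (S ∩ Iic γ)

theorem isClosed_XG {S : Set K} {η : K → Set K} (hL : Ladder S η) (γ : K) :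
    IsClosed (XG S η γ) := by
  refine isClosed_XL (fun α hα β hβ h => hL.ad hα hβ h) fun α hα h => ?_
  have h1 : γ < α := by
    by_contra hcon
    exact h ⟨hα, not_lt.1 hcon⟩
  exact hL.fin α hα γ h1

variable {S : Set K} {η : K → Set K} {F : K → Set K} {γ : K}

theorem phi_inj (x y : K ⊕ K → Bool) (hx : x ∈ XG S η γ) (hy : y ∈ XG S η γ)
    (h : phi S F γ x = phi S F γ y) : x = y := by
  have hinl : ∀ ξ, x (Sum.inl ξ) = true ↔ y (Sum.inl ξ) = true := fun ξ => by
    rw [← phi_inl S F γ x ξ, ← phi_inl S F γ y ξ, h]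
  by_cases h1 : ∃ ξ, x (Sum.inl ξ) = true
  · obtain ⟨ξ, hξ⟩ := h1
    rw [(mem_XL_inl hx hξ).1, (mem_XL_inl hy ((hinl ξ).1 hξ)).1]
  · have h2 : ∀ w ∈ XG S η γ, (¬ ∃ ξ, w (Sum.inl ξ) = true) →
        w = zer ∨ ∃ α ∈ S ∩ Iic γ, w = pp α := by
      rintro w ((rfl | ⟨ξ', hξ', rfl⟩) | ⟨α, hα, rfl⟩) hw
      · exact Or.inl rfl
      · exact absurd ⟨ξ', (pt_inl S η ξ' ξ').2 rfl⟩ hw
      · exact Or.inr ⟨α, hα, rfl⟩
    have h3 : ∀ w v : K ⊕ K → Bool, phi S F γ w = phi S F γ v → ∀ α ∈ S ∩ Iic γ, w = pp α →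
        (v = zer ∨ ∃ α' ∈ S ∩ Iic γ, v = pp α') → w = v := by
      intro w v hwv α hα hw hv
      have h4 : phi S F γ w (Sum.inr α) ≠ 0 := by
        rw [phi_inr, hw]
        exact ⟨hα, (pp_inr α α).2 rfl, fun _ _ => rfl⟩
      rw [hwv, phi_inr] at h4
      rcases hv with rfl | ⟨α', -, rfl⟩
      · exact absurd h4.2.1 (by simp [zer])
      · rw [hw, ((pp_inr α' α).1 h4.2.1)]
    rcases h2 x hx h1 with hx1 | ⟨α, hα, hx1⟩
    · rcases h2 y hy (by rintro ⟨ξ, hξ⟩; exact h1 ⟨ξ, (hinl ξ).2 hξ⟩) with hy1 | ⟨α, hα, hy1⟩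
      · rw [hx1, hy1]
      · exact (h3 y x h.symm α hα hy1 (Or.inl hx1)).symm
    · exact h3 x y h α hα hx1 (h2 y hy (by rintro ⟨ξ, hξ⟩; exact h1 ⟨ξ, (hinl ξ).2 hξ⟩))

theorem phi_finite (hdis : ∀ α ∈ S, ∀ α' ∈ S, α ≤ γ → α' ≤ γ → α ≠ α' →
      Disjoint (η α \ F α) (η α' \ F α')) (x : K ⊕ K → Bool) (hx : x ∈ XG S η γ) :
    (Function.support (phi S F γ x)).Finite := by
  rcases hx with (rfl | ⟨ξ, hξ, rfl⟩) | ⟨α, hα, rfl⟩
  · convert Set.finite_empty
    rw [Function.support_eq_empty_iff]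
    funext i
    by_contra h
    rcases i with ξ | α
    · exact absurd ((phi_inl S F γ _ ξ).1 h) (by simp [zer])
    · exact absurd ((phi_inr S F γ _ α).1 h).2.1 (by simp [zer])
  · have hsub : Function.support (phi S F γ (pt S η ξ)) ⊆
        {Sum.inl ξ} ∪ Sum.inr '' {α | (α ∈ S ∧ α ≤ γ) ∧ ξ ∈ η α \ F α} := by
      rintro (ξ' | α) h
      · have := (phi_inl S F γ _ ξ').1 h
        rw [pt_inl] at this
        subst this
        exact Or.inl rfl
      · have h1 := (phi_inr S F γ _ α).1 h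
        refine Or.inr ⟨α, ⟨h1.1, ((pt_inr S η ξ α).1 h1.2.1).2, fun hF => ?_⟩, rfl⟩
        have := h1.2.2 ξ hF
        rw [(pt_inl S η ξ ξ).2 rfl] at this
        exact absurd this (by simp)
    refine Set.Finite.subset ?_ hsub
    refine (Set.finite_singleton _).union (Set.Finite.image _ ?_)
    refine Set.Subsingleton.finite ?_
    rintro a ⟨ha1, ha2⟩ b ⟨hb1, hb2⟩
    by_contra hne
    exact Set.disjoint_left.1 (hdis a ha1.1 b hb1.1 ha1.2 hb1.2 hne) ha2 hb2
  · have hsub : Function.support (phi S F γ (pp α)) ⊆ {Sum.inr α} := by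
      rintro (ξ' | α') h
      · exact absurd ((phi_inl S F γ _ ξ').1 h) (by simp [pp_inl])
      · have h1 := (phi_inr S F γ _ α').1 h
        rw [(pp_inr α α').1 h1.2.1]
        rfl
    exact (Set.finite_singleton _).subset hsub

/-- A small subset of the whole space is contained in one of the closed subsets `XG`. -/
theorem exists_bound (hK : ℵ₀ < Order.cof K) (A : Set (XS S η)) (hA : #A < Order.cof K) :
    ∃ γ : K, ∀ a ∈ A, a.1 ∈ XG S η γ := by
  have h : ∀ a : XS S η, ∃ γ : K, ∀ γ', γ ≤ γ' → a.1 ∈ XG S η γ' := by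
    rintro ⟨a, (ha | ⟨ξ, hξ, rfl⟩) | ⟨α, hα, rfl⟩⟩
    · have hne : Nonempty K := by
        rw [← not_isEmpty_iff]
        intro he
        rw [Order.cof_eq_zero_iff.2 he] at hK
        exact absurd hK (not_lt.2 (Cardinal.aleph0_pos).le)
      exact ⟨Classical.arbitrary K, fun γ' _ => Or.inl (Or.inl ha)⟩
    · exact ⟨ξ, fun γ' h => pt_mem h⟩
    · exact ⟨α, fun γ' h => pp_mem ⟨hα, h⟩⟩
  choose g hg using h
  obtain ⟨γ, hγ⟩ := exists_gt_of_lt_cof (K := K) (s := g '' A) (lt_of_le_of_lt Cardinal.mk_image_le hA)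
  exact ⟨γ, fun a ha => hg a γ (hγ _ ⟨a, ha, rfl⟩).le⟩

/-- Closures of small sets are uniform Eberlein, with finite supports. -/
theorem small_closure (hK : ℵ₀ < Order.cof K) (hL : Ladder S η)
    (hSc : ∀ α ∈ S, (Iio α).Nonempty)
    (hnr : ∀ δ : K, ℵ₀ < Order.cof (Iio δ) → ¬ IsStationary {x : Iio δ | x.1 ∈ S})
    (A : Set (XS S η)) (hA : #A < Order.cof K) :
    ∃ f : ↥(closure A) → (K ⊕ K → ℝ), Continuous f ∧ Function.Injective f ∧
      (∀ x, (Function.support (f x)).Finite) ∧ ∀ x i, |f x i| ≤ 1 := by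
  obtain ⟨γ, hγ⟩ := exists_bound hK A hA
  have hcl : ∀ a ∈ closure A, a.1 ∈ XG S η γ := by
    have hc : IsClosed {a : XS S η | a.1 ∈ XG S η γ} :=
      (isClosed_XG hL γ).preimage continuous_subtype_val
    exact fun a ha => closure_minimal (fun a ha => hγ a ha) hc ha
  obtain ⟨F, hF1, hF2⟩ : ∃ F : K → Set K, (∀ α, (F α).Finite) ∧
      ∀ α ∈ S, ∀ α' ∈ S, α ≤ γ → α' ≤ γ → α ≠ α' → Disjoint (η α \ F α) (η α' \ F α') := by
    by_cases hlow : ∃ β, β < γ
    · obtain ⟨β', hβ'⟩ := hlow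
      have hne : (univ : Set K).Nonempty := ⟨β', trivial⟩
      set β := wellFounded_lt.min univ hne with hβdef
      have hβ : ∀ x, β ≤ x := fun x => not_lt.1 (wellFounded_lt.not_lt_min univ (mem_univ x))
      have hβγ : β < γ := (hβ β').trans_lt hβ'
      obtain ⟨F, h1, -, h3⟩ := dis_all hL hnr γ β hβγ
      have hpos : ∀ α ∈ S, β < α := fun α hα => by
        obtain ⟨y, hy⟩ := hSc α hα
        exact (hβ y).trans_lt hy
      exact ⟨F, h1, fun α hα α' hα' h4 h5 hne =>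
        h3 α hα α' hα' (hpos α hα) h4 (hpos α' hα') h5 hne⟩
    · refine ⟨fun _ => ∅, fun _ => finite_empty, fun α hα _ _ h4 _ _ => ?_⟩
      obtain ⟨y, hy⟩ := hSc α hα
      exact absurd ⟨y, lt_of_lt_of_le hy h4⟩ hlow
  refine ⟨fun x => phi S F γ x.1.1, ?_, ?_, ?_, ?_⟩
  · exact (continuous_phi hF1 γ).comp (continuous_subtype_val.comp continuous_subtype_val)
  · intro x y hxy
    exact Subtype.ext (Subtype.ext (phi_inj _ _ (hcl _ x.2) (hcl _ y.2) hxy))
  · exact fun x => phi_finite hF2 _ (hcl _ x.2)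
  · exact fun x i => phi_bound S F γ _ i

end Pool.Agent.H969NR
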