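import Pool.Agent.H969NR.Final

/-!
Closures of small subsets embed in `{0,1}^Γ` with supports of size at most two.
-/

set_option autoImplicit false

namespace Pool.Agent.H969NR

open Cardinal Order Set Topology Filter

universe u

section
variable {K : Type u} [LinearOrder K] [WellFoundedLT K]

theorem phi_01 (S : Set K) (F : K → Set K) (γ : K) (x : K ⊕ K → Bool) (i : K ⊕ K) :
    phi S F γ x i = 0 ∨ phi S F γ x i = 1 := by
  classical
  rcases i with ξ | α
  · show (if x (Sum.inl ξ) = true then (1 : ℝ) else 0) = 0 ∨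
      (if x (Sum.inl ξ) = true then (1 : ℝ) else 0) = 1
    split_ifs <;> simp
  · show (if α ∈ S ∧ α ≤ γ then (CU F α).indicator (fun _ => (1 : ℝ)) x else 0) = 0 ∨
      (if α ∈ S ∧ α ≤ γ then (CU F α).indicator (fun _ => (1 : ℝ)) x else 0) = 1
    rw [Set.indicator_apply]
    split_ifs <;> simp

variable {S : Set K} {η : K → Set K} {F : K → Set K} {γ : K}

theorem phi_encard (hdis : ∀ α ∈ S, ∀ α' ∈ S, α ≤ γ → α' ≤ γ → α ≠ α' →
      Disjoint (η α \ F α) (η α' \ F α')) (x : K ⊕ K → Bool) (hx : x ∈ XG S η γ) :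
    (Function.support (phi S F γ x)).encard ≤ 2 := by
  rcases hx with (rfl | ⟨ξ, hξ, rfl⟩) | ⟨α, hα, rfl⟩
  · have h0 : Function.support (phi S F γ zer) = ∅ := by
      rw [Function.support_eq_empty_iff]
      funext i
      by_contra h
      rcases i with ξ | α
      · exact absurd ((phi_inl S F γ _ ξ).1 h) (by simp [zer])
      · exact absurd ((phi_inr S F γ _ α).1 h).2.1 (by simp [zer])
    rw [h0, Set.encard_empty]
    exact zero_le
  · have hsub : Function.support (phi S F γ (pt S η ξ)) ⊆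
        {Sum.inl ξ} ∪ Sum.inr '' {α | (α ∈ S ∧ α ≤ γ) ∧ ξ ∈ η α \ F α} := by
      rintro (ξ' | α) h
      · have := (phi_inl S F γ _ ξ').1 h
        rw [pt_inl] at this
        subst this
        exact Or.inl rfl
      · have h1 := (phi_inr S F γ _ α).1 h
        refine Or.inr ⟨α, ⟨h1.1, ((pt_inr S η ξ α).1 h1.2.1).2, fun hF => ?_⟩, rfl⟩
        have := h1.2.2 ξ hF
        rw [(pt_inl S η ξ ξ).2 rfl] at this
        exact absurd this (by simp)
    have hss : ({α | (α ∈ S ∧ α ≤ γ) ∧ ξ ∈ η α \ F α} : Set K).Subsingleton := by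
      rintro a ⟨ha1, ha2⟩ b ⟨hb1, hb2⟩
      by_contra hne
      exact Set.disjoint_left.1 (hdis a ha1.1 b hb1.1 ha1.2 hb1.2 hne) ha2 hb2
    refine (Set.encard_le_encard hsub).trans ((Set.encard_union_le _ _).trans ?_)
    rw [Set.encard_singleton]
    have h2 : (Sum.inr '' {α | (α ∈ S ∧ α ≤ γ) ∧ ξ ∈ η α \ F α} : Set (K ⊕ K)).encard ≤ 1 :=
      Set.encard_le_one_iff_subsingleton.2 (hss.image _)
    calc (1 : ℕ∞) + (Sum.inr '' {α | (α ∈ S ∧ α ≤ γ) ∧ ξ ∈ η α \ F α} : Set (K ⊕ K)).encard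
        ≤ 1 + 1 := by gcongr
      _ = 2 := by norm_num
  · have hsub : Function.support (phi S F γ (pp α)) ⊆ {Sum.inr α} := by
      rintro (ξ' | α') h
      · exact absurd ((phi_inl S F γ _ ξ').1 h) (by simp [pp_inl])
      · have h1 := (phi_inr S F γ _ α').1 h
        rw [(pp_inr α α').1 h1.2.1]
        rfl
    refine (Set.encard_le_encard hsub).trans ?_
    rw [Set.encard_singleton]
    norm_num

theorem small_closure2 (hK : ℵ₀ < Order.cof K) (hL : Ladder S η)
    (hSc : ∀ α ∈ S, (Iio α).Nonempty)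
    (hnr : ∀ δ : K, ℵ₀ < Order.cof (Iio δ) → ¬ IsStationary {x : Iio δ | x.1 ∈ S})
    (A : Set (XS S η)) (hA : #A < Order.cof K) :
    ∃ f : ↥(closure A) → (K ⊕ K → ℝ), Continuous f ∧ Function.Injective f ∧
      (∀ x, (Function.support (f x)).encard ≤ 2) ∧ ∀ x i, f x i = 0 ∨ f x i = 1 := by
  obtain ⟨γ, hγ⟩ := exists_bound hK A hA
  have hcl : ∀ a ∈ closure A, a.1 ∈ XG S η γ := by
    have hc : IsClosed {a : XS S η | a.1 ∈ XG S η γ} :=
      (isClosed_XG hL γ).preimage continuous_subtype_val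
    exact fun a ha => closure_minimal (fun a ha => hγ a ha) hc ha
  obtain ⟨F, hF1, hF2⟩ : ∃ F : K → Set K, (∀ α, (F α).Finite) ∧
      ∀ α ∈ S, ∀ α' ∈ S, α ≤ γ → α' ≤ γ → α ≠ α' → Disjoint (η α \ F α) (η α' \ F α') := by
    by_cases hlow : ∃ β, β < γ
    · obtain ⟨β', hβ'⟩ := hlow
      have hne : (univ : Set K).Nonempty := ⟨β', trivial⟩
      set β := wellFounded_lt.min univ hne with hβdef
      have hβ : ∀ x, β ≤ x := fun x => not_lt.1 (wellFounded_lt.not_lt_min univ (mem_univ x))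
      have hβγ : β < γ := (hβ β').trans_lt hβ'
      obtain ⟨F, h1, -, h3⟩ := dis_all hL hnr γ β hβγ
      have hpos : ∀ α ∈ S, β < α := fun α hα => by
        obtain ⟨y, hy⟩ := hSc α hα
        exact (hβ y).trans_lt hy
      exact ⟨F, h1, fun α hα α' hα' h4 h5 hne =>
        h3 α hα α' hα' (hpos α hα) h4 (hpos α' hα') h5 hne⟩
    · refine ⟨fun _ => ∅, fun _ => finite_empty, fun α hα _ _ h4 _ _ => ?_⟩
      obtain ⟨y, hy⟩ := hSc α hα
      exact absurd ⟨y, lt_of_lt_of_le hy h4⟩ hlow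
  refine ⟨fun x => phi S F γ x.1.1, ?_, ?_, ?_, ?_⟩
  · exact (continuous_phi hF1 γ).comp (continuous_subtype_val.comp continuous_subtype_val)
  · intro x y hxy
    exact Subtype.ext (Subtype.ext (phi_inj _ _ (hcl _ x.2) (hcl _ y.2) hxy))
  · exact fun x => phi_encard hF2 _ (hcl _ x.2)
  · exact fun x i => phi_01 S F γ _ i

end

theorem main_exists2 (κ : Cardinal.{0}) (hκ : κ.IsRegular) (hκ0 : ℵ₀ < κ)
    (S : Set κ.ord.ToType) (hS : IsStationary S) (hcof : ∀ α ∈ S, Order.cof (Iio α) = ℵ₀)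
    (hnr : ∀ δ : κ.ord.ToType, ℵ₀ < Order.cof (Iio δ) → ¬ IsStationary {x : Iio δ | x.1 ∈ S}) :
    ∃ (X : Type) (_ : TopologicalSpace X) (_ : CompactSpace X) (_ : T2Space X),
      (∀ A : Set X, #A < κ → ∃ (Γ : Type) (f : ↥(closure A) → (Γ → ℝ)), Continuous f ∧
        Function.Injective f ∧ (∀ x, (Function.support (f x)).encard ≤ 2) ∧
        ∀ x i, f x i = 0 ∨ f x i = 1) ∧
      ∀ (Γ : Type) (f : X → (Γ → ℝ)), Continuous f → Function.Injective f →
        ¬ ∀ x, (Function.support (f x)).Countable := by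
  have hcK : Order.cof κ.ord.ToType = κ := by rw [Ordinal.cof_toType]; exact hκ.cof_ord
  have hK : ℵ₀ < Order.cof κ.ord.ToType := by rw [hcK]; exact hκ0
  have hsm : ∀ x : κ.ord.ToType, #(Iic x) < Order.cof κ.ord.ToType := by
    intro x
    rw [hcK]
    have h1 : #(Iio x) < κ := Cardinal.mk_Iio_toType_ord_lt x
    have h2 : (Iic x : Set κ.ord.ToType) = insert x (Iio x) := by
      ext y; simp [le_iff_eq_or_lt]
    rw [h2]
    refine lt_of_le_of_lt Cardinal.mk_insert_le ?_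
    exact Cardinal.add_lt_of_lt hκ0.le h1 (Cardinal.one_lt_aleph0.trans hκ0)
  obtain ⟨η, hL⟩ := exists_ladder hcof
  have hne : ∀ α ∈ S, (Iio α : Set κ.ord.ToType).Nonempty := by
    intro α hα
    by_contra h
    have he : IsEmpty (Iio α) := by
      rw [Set.not_nonempty_iff_eq_empty] at h
      rw [h]; infer_instance
    have h1 := hcof α hα
    rw [Order.cof_eq_zero_iff.2 he] at h1
    exact Cardinal.aleph0_ne_zero h1.symm
  have hclosed : IsClosed (XS S η) :=
    isClosed_XL (fun α hα β hβ h => hL.ad hα hβ h) fun α hα h => absurd hα h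
  refine ⟨XS S η, inferInstance, isCompact_iff_compactSpace.1 hclosed.isCompact, inferInstance,
    ?_, ?_⟩
  · intro A hA
    obtain ⟨f, h1, h2, h3, h4⟩ := small_closure2 hK hL hne hnr A (by rw [hcK]; exact hA)
    exact ⟨_, f, h1, h2, h3, h4⟩
  · intro Γ f hf hinj hsupp
    exact not_corson hK hsm hS hL Γ f hf hinj hsupp

end Pool.Agent.H969NR
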