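import Pool.Agent.H969NR.Comb

/-!
The compact space of a ladder system: isolated points `pt ξ` (`ξ ∈ K`), points `pp α` (`α ∈ S`)
which are limits of `pt ξ`, `ξ ∈ η α`, and one point at infinity `zer`.
-/

set_option autoImplicit false

namespace Pool.Agent.H969NR

open Cardinal Order Set Topology Filter

universe u

variable {K : Type u}

open Classical in
/-- the point at infinity -/
noncomputable def zer : K ⊕ K → Bool := fun _ => false

open Classical in
/-- the isolated point `ξ` -/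
noncomputable def pt (S : Set K) (η : K → Set K) (ξ : K) : K ⊕ K → Bool :=
  Sum.elim (fun ξ' => decide (ξ' = ξ)) (fun α => decide (α ∈ S ∧ ξ ∈ η α))

open Classical in
/-- the limit point of the ladder `η α` -/
noncomputable def pp (α : K) : K ⊕ K → Bool :=
  Sum.elim (fun _ => false) (fun α' => decide (α' = α))

/-- the space with isolated points `pt ξ`, `ξ ∈ L₁`, and limit points `pp α`, `α ∈ L₂`. -/
def XL (S : Set K) (η : K → Set K) (L₁ L₂ : Set K) : Set (K ⊕ K → Bool) :=
  {zer} ∪ pt S η '' L₁ ∪ pp '' L₂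

theorem zer_apply (i : K ⊕ K) : (zer i : Bool) = false := rfl

theorem pt_inl (S : Set K) (η : K → Set K) (ξ ξ' : K) : pt S η ξ (Sum.inl ξ') = true ↔ ξ' = ξ := by
  simp [pt]

theorem pt_inr (S : Set K) (η : K → Set K) (ξ α : K) :
    pt S η ξ (Sum.inr α) = true ↔ α ∈ S ∧ ξ ∈ η α := by
  simp [pt]

theorem pp_inl (α ξ : K) : pp α (Sum.inl ξ) = false := rfl

theorem pp_inr (α α' : K) : pp α (Sum.inr α') = true ↔ α' = α := by
  simp [pp]

/-- basic neighbourhoods -/
theorem exists_of_mem_closure {I : Type u} {T : Set (I → Bool)} {x : I → Bool} (hx : x ∈ closure T)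
    (F : Set I) (hF : F.Finite) : ∃ y ∈ T, ∀ i ∈ F, y i = x i := by
  have ho : IsOpen (Set.pi F fun i => ({x i} : Set Bool)) :=
    isOpen_set_pi hF fun _ _ => isOpen_discrete _
  obtain ⟨y, hy, hyT⟩ := mem_closure_iff.1 hx _ ho (fun i _ => rfl)
  exact ⟨y, hyT, fun i hi => hy i hi⟩

theorem mem_XL_inl {S : Set K} {η : K → Set K} {L₁ L₂ : Set K} {y : K ⊕ K → Bool}
    (hy : y ∈ XL S η L₁ L₂) {ξ : K} (h : y (Sum.inl ξ) = true) : y = pt S η ξ ∧ ξ ∈ L₁ := by
  rcases hy with (rfl | ⟨ξ', hξ', rfl⟩) | ⟨α, -, rfl⟩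
  · exact absurd h (by simp [zer])
  · rw [pt_inl] at h
    subst h
    exact ⟨rfl, hξ'⟩
  · exact absurd h (by simp [pp_inl])

theorem mem_XL_inr {S : Set K} {η : K → Set K} {L₁ L₂ : Set K} {y : K ⊕ K → Bool}
    (hy : y ∈ XL S η L₁ L₂) {α : K} (h : y (Sum.inr α) = true) :
    (y = pp α ∧ α ∈ L₂) ∨ ∃ ξ ∈ L₁, y = pt S η ξ ∧ α ∈ S ∧ ξ ∈ η α := by
  rcases hy with (rfl | ⟨ξ', hξ', rfl⟩) | ⟨α', hα', rfl⟩
  · exact absurd h (by simp [zer])
  · rw [pt_inr] at h
    exact Or.inr ⟨ξ', hξ', rfl, h⟩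
  · rw [pp_inr] at h
    subst h
    exact Or.inl ⟨rfl, hα'⟩

theorem isClosed_XL {S : Set K} {η : K → Set K} {L₁ L₂ : Set K}
    (had : ∀ α ∈ S, ∀ β ∈ S, α ≠ β → (η α ∩ η β).Finite)
    (hL : ∀ α ∈ S, α ∉ L₂ → (η α ∩ L₁).Finite) : IsClosed (XL S η L₁ L₂) := by
  apply isClosed_of_closure_subset
  intro x hx
  by_cases h1 : ∃ ξ, x (Sum.inl ξ) = true
  · obtain ⟨ξ, hξ⟩ := h1
    have key : ∀ c, x c = pt S η ξ c ∧ ξ ∈ L₁ := by
      intro c
      obtain ⟨y, hy, hyx⟩ := exists_of_mem_closure hx {Sum.inl ξ, c} (by simp)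
      have h2 := hyx (Sum.inl ξ) (by simp)
      rw [hξ] at h2
      obtain ⟨h3, h4⟩ := mem_XL_inl hy h2
      exact ⟨by rw [← h3]; exact (hyx c (by simp)).symm, h4⟩
    exact Or.inl (Or.inr ⟨ξ, (key (Sum.inl ξ)).2, (funext fun c => (key c).1).symm⟩)
  · have hinl : ∀ ξ, x (Sum.inl ξ) = false := fun ξ => by
      by_contra h
      exact h1 ⟨ξ, by simpa using h⟩
    by_cases h2 : ∃ α, x (Sum.inr α) = true
    · obtain ⟨α, hα⟩ := h2
      have hαL : α ∈ L₂ := by
        by_contra hαL
        obtain ⟨y, hy, hyx⟩ := exists_of_mem_closure hx {Sum.inr α} (by simp)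
        have h3 := hyx (Sum.inr α) (by simp)
        rw [hα] at h3
        have hαS : α ∈ S := by
          rcases mem_XL_inr hy h3 with h | ⟨ξ, _, _, h, _⟩
          · exact absurd h.2 hαL
          · exact h
        have hfin := hL α hαS hαL
        obtain ⟨y, hy, hyx⟩ := exists_of_mem_closure hx
          (insert (Sum.inr α) (Sum.inl '' (η α ∩ L₁))) ((hfin.image _).insert _)
        have h3 := hyx (Sum.inr α) (by simp)
        rw [hα] at h3
        rcases mem_XL_inr hy h3 with h | ⟨ξ, hξ, rfl, h, h4⟩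
        · exact hαL h.2
        · have h5 := hyx (Sum.inl ξ) (Or.inr ⟨ξ, ⟨h4, hξ⟩, rfl⟩)
          rw [hinl, (pt_inl S η ξ ξ).2 rfl] at h5
          exact absurd h5 (by simp)
      refine Or.inr ⟨α, hαL, funext fun c => ?_⟩
      rcases c with ξ | α'
      · rw [hinl, pp_inl]
      · by_cases h3 : α' = α
        · subst h3; rw [hα, (pp_inr α' α').2 rfl]
        · have h4 : pp α (Sum.inr α') = false := by
            by_contra h
            exact h3 ((pp_inr α α').1 (by simpa using h))
          rw [h4]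
          by_contra h5
          have h6 : x (Sum.inr α') = true := by
            revert h5; cases x (Sum.inr α') <;> simp
          have step : ∀ y ∈ XL S η L₁ L₂, y (Sum.inr α) = true → y (Sum.inr α') = true →
              ∃ ξ ∈ L₁, y = pt S η ξ ∧ α ∈ S ∧ α' ∈ S ∧ ξ ∈ η α ∩ η α' := by
            intro y hy e1 e2
            rcases mem_XL_inr hy e1 with ⟨rfl, -⟩ | ⟨ξ, hξ, rfl, e3, e4⟩
            · exact absurd ((pp_inr α α').1 e2) h3
            · rw [pt_inr] at e2
              exact ⟨ξ, hξ, rfl, e3, e2.1, e4, e2.2⟩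
          obtain ⟨y, hy, hyx⟩ := exists_of_mem_closure hx {Sum.inr α, Sum.inr α'} (by simp)
          obtain ⟨ξ, -, -, h7, h8, -⟩ := step y hy (by rw [hyx _ (by simp)]; exact hα)
            (by rw [hyx _ (by simp)]; exact h6)
          have hfin := had α h7 α' h8 (Ne.symm h3)
          obtain ⟨y, hy, hyx⟩ := exists_of_mem_closure hx
            (insert (Sum.inr α) (insert (Sum.inr α') (Sum.inl '' (η α ∩ η α'))))
            (((hfin.image _).insert _).insert _)
          obtain ⟨ξ, hξ, rfl, -, -, h9⟩ := step y hy (by rw [hyx _ (by simp)]; exact hα)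
            (by rw [hyx _ (by simp)]; exact h6)
          have h10 := hyx (Sum.inl ξ) (Or.inr (Or.inr ⟨ξ, h9, rfl⟩))
          rw [hinl, (pt_inl S η ξ ξ).2 rfl] at h10
          exact absurd h10 (by simp)
    · refine Or.inl (Or.inl ?_)
      rw [mem_singleton_iff]
      funext c
      rcases c with ξ | α
      · rw [hinl]; rfl
      · by_contra h
        refine h2 ⟨α, ?_⟩
        revert h
        simp [zer]

theorem zer_mem {S : Set K} {η : K → Set K} {L₁ L₂ : Set K} : zer ∈ XL S η L₁ L₂ :=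
  Or.inl (Or.inl rfl)

theorem pt_mem {S : Set K} {η : K → Set K} {L₁ L₂ : Set K} {ξ : K} (h : ξ ∈ L₁) :
    pt S η ξ ∈ XL S η L₁ L₂ := Or.inl (Or.inr ⟨ξ, h, rfl⟩)

theorem pp_mem {S : Set K} {η : K → Set K} {L₁ L₂ : Set K} {α : K} (h : α ∈ L₂) :
    pp α ∈ XL S η L₁ L₂ := Or.inr ⟨α, h, rfl⟩

theorem pp_ne_zer (α : K) : pp α ≠ zer := by
  intro h
  have h1 := (pp_inr α α).2 rfl
  rw [h] at h1
  exact absurd h1 (by simp [zer])

/-- limit points tend to infinity -/
theorem tendsto_pp (T : Set K) : Tendsto (fun α : T => (pp α.1 : K ⊕ K → Bool)) cofinite (𝓝 zer) := by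
  rw [tendsto_pi_nhds]
  rintro (ξ | α')
  · exact tendsto_const_nhds
  · refine tendsto_const_nhds.congr' ?_
    have : ∀ᶠ α : T in cofinite, α.1 ≠ α' := by
      have hf : ({α : T | α.1 = α'} : Set T).Finite := by
        refine Set.Subsingleton.finite ?_
        intro a ha b hb
        exact Subtype.ext (ha.trans hb.symm)
      filter_upwards [hf.compl_mem_cofinite] with a ha using ha
    filter_upwards [this] with a ha
    by_contra h
    refine ha ((pp_inr a.1 α').1 ?_).symm
    revert h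
    simp [zer]

/-- the ladder converges to its limit point -/
theorem tendsto_pt {S : Set K} {η : K → Set K}
    (had : ∀ α ∈ S, ∀ β ∈ S, α ≠ β → (η α ∩ η β).Finite) {δ : K} (hδ : δ ∈ S) :
    Tendsto (fun ξ : η δ => pt S η ξ.1) cofinite (𝓝 (pp δ)) := by
  rw [tendsto_pi_nhds]
  rintro (ξ' | α)
  · refine tendsto_const_nhds.congr' ?_
    have hf : ({ξ : η δ | ξ.1 = ξ'} : Set (η δ)).Finite := by
      refine Set.Subsingleton.finite ?_
      intro a ha b hb
      exact Subtype.ext (ha.trans hb.symm)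
    filter_upwards [hf.compl_mem_cofinite] with a ha
    by_contra h
    refine ha ((pt_inl S η a.1 ξ').1 ?_).symm
    revert h
    rw [pp_inl]
    simp
  · by_cases hα : α = δ
    · subst hα
      refine tendsto_const_nhds.congr' (Eventually.of_forall fun ξ => ?_)
      rw [(pp_inr α α).2 rfl]
      exact ((pt_inr S η ξ.1 α).2 ⟨hδ, ξ.2⟩).symm
    · have h0 : pp δ (Sum.inr α) = false := by
        by_contra h
        exact hα ((pp_inr δ α).1 (by simpa using h))
      rw [h0]
      refine tendsto_const_nhds.congr' ?_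
      by_cases hαS : α ∈ S
      · have hf : ({ξ : η δ | ξ.1 ∈ η α} : Set (η δ)).Finite := by
          refine ((had δ hδ α hαS (Ne.symm hα)).preimage Subtype.val_injective.injOn).subset ?_
          intro ξ hξ
          exact ⟨ξ.2, hξ⟩
        filter_upwards [hf.compl_mem_cofinite] with a ha
        by_contra h
        refine ha ((pt_inr S η a.1 α).1 ?_).2
        revert h
        simp
      · refine Eventually.of_forall fun ξ => ?_
        by_contra h
        refine hαS ((pt_inr S η ξ.1 α).1 ?_).1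
        revert h
        simp

end Pool.Agent.H969NR
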